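import Pool.Agent.Lib.MP_c0afcf_an.Proof

set_option autoImplicit false

namespace Pool.Agent.Results.MP_c0afcf_an.HotSpotSet

open Pool.Agent.Lib.MP_c0afcf_an

/-- There is a compact connected metric graph `Γ` whose hot-spot set `M(Γ)` (for the standard
Laplacian) is infinite but is not the whole graph. -/
theorem result :
    ∃ Γ : MetricGraph, Γ.Connected ∧ Γ.hotSpots.Infinite ∧ Γ.hotSpots ≠ Set.univ :=
  exists_infinite_proper

end Pool.Agent.Results.MP_c0afcf_an.HotSpotSet
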